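import Pool.Agent.H14.AVS.S3

/-!
# AVS: the completion at infinity
-/

set_option autoImplicit false

namespace Pool.AVS

namespace CPI

open Polynomial Pool.AVR WithZero Filter Topology

section General

variable {L : Type} [Field L] [hv : Valued L (WithZero (Multiplicative ℤ))]

/-- The valuation ring. -/
abbrev VO (L : Type) [Field L] [Valued L (WithZero (Multiplicative ℤ))] : ValuationSubring L :=
  (Valued.v (R := L) (Γ₀ := WithZero (Multiplicative ℤ))).valuationSubring

theorem mem_VO {x : L} : x ∈ VO L ↔ Valued.v x ≤ (1 : WithZero (Multiplicative ℤ)) := Iff.rfl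

theorem exp_pow (n : ℕ) : (WithZero.exp (-1 : ℤ)) ^ n = WithZero.exp (-(n : ℤ)) := by
  rw [← WithZero.exp_nsmul]; congr 1; simp

theorem lt_one_iff (x : WithZero (Multiplicative ℤ)) : x < 1 ↔ x ≤ WithZero.exp (-1 : ℤ) := by
  by_cases hx : x = 0
  · subst hx; simp
  · rw [← WithZero.exp_zero, ← WithZero.log_lt_iff_lt_exp hx, ← WithZero.log_le_iff_le_exp hx]
    omega

variable {π : L} (hπ : Valued.v π = WithZero.exp (-1 : ℤ))

include hπ in
theorem pi_ne : π ≠ 0 := by
  intro h
  rw [h, map_zero] at hπ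
  exact WithZero.exp_ne_zero hπ.symm

include hπ in
theorem pi_mem : π ∈ VO L := by
  rw [mem_VO, hπ, ← WithZero.exp_zero, WithZero.exp_le_exp]
  omega

include hπ in
theorem div_pow_mem (x : L) (n : ℕ) : x / π ^ n ∈ VO L ↔ Valued.v x ≤ WithZero.exp (-(n : ℤ)) := by
  rw [mem_VO, map_div₀, map_pow, hπ, exp_pow, div_le_one₀ (by simp)]

include hπ in
theorem v_pow (n : ℕ) : Valued.v (π ^ n) = WithZero.exp (-(n : ℤ)) := by
  rw [map_pow, hπ, exp_pow]

include hπ in
theorem unif (x : L) (_hx : x ∈ VO L) (h0 : x ≠ 0) : x⁻¹ ∉ VO L ↔ x / π ∈ VO L := by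
  have h1 := div_pow_mem hπ x 1
  rw [pow_one] at h1
  rw [h1, mem_VO, map_inv₀, not_le, Nat.cast_one, ← lt_one_iff]
  exact one_lt_inv₀ (by rw [pos_iff_ne_zero]; simpa using h0)

include hπ in
theorem arch (x : L) (h0 : x ≠ 0) : ∃ n : ℤ, x / π ^ n ∈ VO L ∧ (x / π ^ n)⁻¹ ∈ VO L := by
  have hvx : Valued.v x ≠ (0 : WithZero (Multiplicative ℤ)) := by simpa using h0
  refine ⟨-(WithZero.log (Valued.v x)), ?_⟩
  have h1 : Valued.v (x / π ^ (-(WithZero.log (Valued.v x)))) = 1 := by
    rw [map_div₀, map_zpow₀, hπ, ← WithZero.exp_zsmul]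
    simp only [smul_eq_mul, mul_neg, mul_one, neg_neg]
    rw [WithZero.exp_log hvx]
    exact div_self hvx
  rw [mem_VO, mem_VO, map_inv₀, h1]
  simp

theorem mem_max (x : VO L) : x ∈ IsLocalRing.maximalIdeal (VO L) ↔
    Valued.v (x : L) ≤ WithZero.exp (-1 : ℤ) := by
  rw [← lt_one_iff]
  exact Valuation.mem_maximalIdeal_iff (v := Valued.v (R := L) (Γ₀ := WithZero (Multiplicative ℤ)))

include hπ in
theorem max_eq : IsLocalRing.maximalIdeal (VO L) = Ideal.span {(⟨π, pi_mem hπ⟩ : VO L)} := by
  ext x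
  rw [mem_max, Ideal.mem_span_singleton]
  have h1 := div_pow_mem hπ (x : L) 1
  rw [pow_one, Nat.cast_one] at h1
  rw [← h1]
  constructor
  · intro h
    refine ⟨⟨_, h⟩, ?_⟩
    apply Subtype.ext
    change (x : L) = π * (x / π)
    field_simp [pi_ne hπ]
  · rintro ⟨y, hy⟩
    have h2 : (x : L) = π * y := congrArg Subtype.val hy
    rw [h2, mul_div_cancel_left₀ _ (pi_ne hπ)]
    exact y.2

include hπ in
theorem mem_max_pow (x : VO L) (n : ℕ) : x ∈ (IsLocalRing.maximalIdeal (VO L)) ^ n ↔
    Valued.v (x : L) ≤ WithZero.exp (-(n : ℤ)) := by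
  rw [max_eq hπ, Ideal.span_singleton_pow, Ideal.mem_span_singleton, ← div_pow_mem hπ]
  constructor
  · rintro ⟨y, hy⟩
    have h2 : (x : L) = π ^ n * y := congrArg Subtype.val hy
    rw [h2, mul_div_cancel_left₀ _ (pow_ne_zero _ (pi_ne hπ))]
    exact y.2
  · intro h
    refine ⟨⟨_, h⟩, ?_⟩
    apply Subtype.ext
    change (x : L) = π ^ n * (x / π ^ n)
    have := pow_ne_zero n (pi_ne hπ)
    field_simp

include hπ in
theorem closed_ball (n : ℕ) (a : L) :
    IsClosed {y : L | Valued.v (y - a) ≤ WithZero.exp (-(n : ℤ))} := by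
  have h1 := Valued.isClosed_closedBall L (Valued.v.restrict (π ^ n))
  have h2 : {x : L | Valued.v.restrict x ≤ Valued.v.restrict (π ^ n)} =
      {x : L | Valued.v x ≤ WithZero.exp (-(n : ℤ))} := by
    ext x
    simp only [Set.mem_ofPred_eq]
    rw [Valuation.restrict_le_iff, v_pow hπ]
  rw [h2] at h1
  exact h1.preimage (continuous_id.sub continuous_const)

include hπ in
theorem complete [CompleteSpace L] : IsAdicComplete (IsLocalRing.maximalIdeal (VO L)) (VO L) where
  haus' x hx := by
    apply Subtype.ext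
    change (x : L) = 0
    by_contra h0
    have hvx : Valued.v (x : L) ≠ (0 : WithZero (Multiplicative ℤ)) := by simpa using h0
    obtain ⟨k, hk⟩ := WithZero.exists_exp_neg_natCast_lt hvx
    have h1 := hx k
    rw [SModEq.zero] at h1
    simp only [smul_eq_mul, Ideal.mul_top] at h1
    rw [mem_max_pow hπ] at h1
    exact absurd hk (not_lt.mpr h1)
  prec' f hf := by
    have h1 : ∀ m n : ℕ, m ≤ n → Valued.v ((f n : L) - f m) ≤ WithZero.exp (-(m : ℤ)) := by
      intro m n hmn
      have h2 := (hf hmn).symm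
      rw [SModEq.sub_mem] at h2
      simp only [smul_eq_mul, Ideal.mul_top] at h2
      rw [mem_max_pow hπ] at h2
      exact h2
    have h3 : CauchySeq (fun n => (f n : L)) := by
      rw [CauchySeq, Valued.cauchy_iff]
      refine ⟨inferInstance, fun γ => ?_⟩
      have hγ : (MonoidWithZeroHom.ValueGroup₀.embedding (γ : MonoidWithZeroHom.ValueGroup₀
          (.ofClass (Valued.v (R := L) (Γ₀ := WithZero (Multiplicative ℤ)))))) ≠ 0 := by
        simp
      obtain ⟨k, hk⟩ := WithZero.exists_exp_neg_natCast_lt hγ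
      refine ⟨(fun n => (f n : L)) '' Set.Ici k, image_mem_map (Ici_mem_atTop k), ?_⟩
      rintro _ ⟨m, hm, rfl⟩ _ ⟨n, hn, rfl⟩
      rw [Valuation.restrict_lt_iff_lt_embedding]
      refine lt_of_le_of_lt ?_ hk
      have h4 : (f n : L) - f m = ((f n : L) - f k) - (f m - f k) := by ring
      rw [h4]
      exact Valuation.map_sub_le _ (h1 k n hn) (h1 k m hm)
    obtain ⟨l, hl⟩ := cauchySeq_tendsto_of_complete h3
    have h5 : ∀ n : ℕ, Valued.v (l - f n) ≤ WithZero.exp (-(n : ℤ)) := by
      intro n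
      have h6 := (closed_ball hπ n (f n : L)).mem_of_tendsto hl
        (Filter.eventually_atTop.mpr ⟨n, fun m hm => h1 n m hm⟩)
      exact h6
    have hlm : l ∈ VO L := by
      have h7 : l = (l - f 0) + f 0 := by ring
      rw [h7]
      apply add_mem _ (f 0).2
      rw [mem_VO]
      simpa using h5 0
    refine ⟨⟨l, hlm⟩, fun n => ?_⟩
    apply SModEq.symm
    rw [SModEq.sub_mem]
    simp only [smul_eq_mul, Ideal.mul_top]
    rw [mem_max_pow hπ]
    exact h5 n

include hπ in
theorem henselian [CompleteSpace L] : HenselianLocalRing (VO L) where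
  is_henselian := by
    have := complete hπ
    intro f hf a h1 h2
    exact (IsAdicComplete.henselianRing (VO L) (IsLocalRing.maximalIdeal (VO L))).is_henselian
      f hf a h1 (h2.map _)

end General

section Inf

open scoped RatFunc.CompletionAtInfty Classical

attribute [-instance] RatFunc.valuedRatFunc

variable (F : Type) [Field F]

theorem complete_inf : CompleteSpace (RatFunc.CompletionAtInfty F) :=
  inferInstanceAs (CompleteSpace (UniformSpace.Completion (RatFunc F)))

theorem v_coe (x : RatFunc F) :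
    Valued.v (algebraMap (RatFunc F) (RatFunc.CompletionAtInfty F) x) =
      RatFunc.inftyValuationDef F x := by
  let := RatFunc.inftyValued F
  exact Valued.valuedCompletion_apply x

theorem v_X_inv :
    Valued.v (algebraMap (RatFunc F) (RatFunc.CompletionAtInfty F) (RatFunc.X)⁻¹) =
      WithZero.exp (-1 : ℤ) := by
  rw [v_coe, ← one_div]
  exact RatFunc.inftyValuation.X_inv F

theorem dense_inf (z : RatFunc.CompletionAtInfty F) (n : ℕ) :
    ∃ x : RatFunc F, Valued.v (z - algebraMap (RatFunc F) (RatFunc.CompletionAtInfty F) x) ≤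
      WithZero.exp (-(n : ℤ)) := by
  have h1 : DenseRange (algebraMap (RatFunc F) (RatFunc.CompletionAtInfty F)) :=
    UniformSpace.Completion.denseRange_coe
  have h2 := Valued.isOpen_closedBall (RatFunc.CompletionAtInfty F)
    (r := Valued.v.restrict ((algebraMap (RatFunc F) (RatFunc.CompletionAtInfty F)
      (RatFunc.X)⁻¹) ^ n)) (by
        rw [Ne, map_eq_zero]
        exact pow_ne_zero _ (pi_ne (v_X_inv F)))
  have h3 : {x : RatFunc.CompletionAtInfty F | Valued.v.restrict x ≤ Valued.v.restrict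
      ((algebraMap (RatFunc F) (RatFunc.CompletionAtInfty F) (RatFunc.X)⁻¹) ^ n)} =
      {x : RatFunc.CompletionAtInfty F | Valued.v x ≤ WithZero.exp (-(n : ℤ))} := by
    ext x
    simp only [Set.mem_ofPred_eq]
    rw [Valuation.restrict_le_iff, v_pow (v_X_inv F)]
  rw [h3] at h2
  have h4 := h2.preimage ((continuous_const.sub continuous_id) :
    Continuous fun y : RatFunc.CompletionAtInfty F => z - y)
  obtain ⟨x, hx⟩ := h1.exists_mem_open h4 ⟨z, by simp⟩
  exact ⟨x, hx⟩

theorem int_le (x : RatFunc F) (hx : x ≠ 0) (k : ℤ) :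
    RatFunc.inftyValuationDef F x ≤ WithZero.exp k ↔ x.intDegree ≤ k := by
  rw [RatFunc.inftyValuation_of_nonzero F hx, WithZero.exp_le_exp]

theorem mem_inf (x : RatFunc F) :
    algebraMap (RatFunc F) (RatFunc.CompletionAtInfty F) x ∈ VO (RatFunc.CompletionAtInfty F) ↔
      x ∈ Iinf F := by
  rw [mem_VO, v_coe]
  by_cases hx : x = 0
  · subst hx
    simp only [RatFunc.InftyValuation.map_zero', zero_le, true_iff]
    exact (OInf F).zero_mem
  · rw [← WithZero.exp_zero, int_le F x hx]
    exact Iff.rfl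

/-- A rational function of degree at most zero is congruent to a constant. -/
theorem near_const (x : RatFunc F) (hx : x.intDegree ≤ 0) :
    ∃ c : F, RatFunc.inftyValuationDef F (x - RatFunc.C c) ≤ WithZero.exp (-1 : ℤ) := by
  have key : ∀ y : RatFunc F, (y ≠ 0 → y.intDegree ≤ -1) →
      RatFunc.inftyValuationDef F y ≤ WithZero.exp (-1 : ℤ) := by
    intro y hy
    by_cases h0 : y = 0
    · subst h0
      rw [RatFunc.InftyValuation.map_zero']
      exact zero_le
    · exact (int_le F y h0 _).mpr (hy h0)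
  by_cases hlt : x ≠ 0 → x.intDegree ≤ -1
  · refine ⟨0, ?_⟩
    rw [map_zero, sub_zero]
    exact key x hlt
  · obtain ⟨hx0, hlt⟩ := Classical.not_imp.mp hlt
    have hd : x.num.natDegree = x.denom.natDegree := by
      rw [RatFunc.intDegree] at hx hlt
      omega
    have hn0 : x.num ≠ 0 := RatFunc.num_ne_zero hx0
    refine ⟨x.num.leadingCoeff, key _ fun hne => ?_⟩
    have hdl : (algebraMap F[X] (RatFunc F) x.denom) ≠ 0 := by
      rw [Ne, FaithfulSMul.algebraMap_eq_zero_iff]
      exact x.denom_ne_zero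
    have e1 : x - RatFunc.C x.num.leadingCoeff =
        algebraMap F[X] (RatFunc F) (x.num - C x.num.leadingCoeff * x.denom) /
          algebraMap F[X] (RatFunc F) x.denom := by
      rw [map_sub, map_mul, RatFunc.algebraMap_C, sub_div, mul_div_assoc, div_self hdl, mul_one,
        RatFunc.num_div_denom]
    have hnum : x.num - C x.num.leadingCoeff * x.denom ≠ 0 := by
      intro h
      rw [h, map_zero, zero_div] at e1
      exact hne e1
    have hlead : x.num.leadingCoeff = (C x.num.leadingCoeff * x.denom).leadingCoeff := by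
      rw [leadingCoeff_mul, leadingCoeff_C, (RatFunc.monic_denom x).leadingCoeff, mul_one]
    have hdeg : x.num.degree = (C x.num.leadingCoeff * x.denom).degree := by
      rw [degree_mul, degree_C (leadingCoeff_ne_zero.mpr hn0), zero_add,
        degree_eq_natDegree hn0, degree_eq_natDegree x.denom_ne_zero, hd]
    have hlt2 := degree_sub_lt_left hdeg hn0 hlead
    have hlt3 : (x.num - C x.num.leadingCoeff * x.denom).natDegree < x.denom.natDegree := by
      rw [← hd]
      exact natDegree_lt_natDegree hnum hlt2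
    rw [e1, RatFunc.intDegree_div (by rwa [Ne, FaithfulSMul.algebraMap_eq_zero_iff]) hdl,
      RatFunc.intDegree_polynomial, RatFunc.intDegree_polynomial]
    omega

theorem fin_res [Finite F] :
    Finite (IsLocalRing.ResidueField (VO (RatFunc.CompletionAtInfty F))) := by
  have hC : ∀ c : F, algebraMap (RatFunc F) (RatFunc.CompletionAtInfty F) (RatFunc.C c) ∈
      VO (RatFunc.CompletionAtInfty F) := by
    intro c
    rw [mem_inf]
    change (RatFunc.C c).intDegree ≤ 0
    simp
  refine Finite.of_surjective (fun c : F => IsLocalRing.residue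
    (VO (RatFunc.CompletionAtInfty F)) ⟨_, hC c⟩) ?_
  intro y
  obtain ⟨z, rfl⟩ := IsLocalRing.residue_surjective y
  obtain ⟨x, hx⟩ := dense_inf F (z : RatFunc.CompletionAtInfty F) 1
  rw [Nat.cast_one] at hx
  have hxm : x.intDegree ≤ 0 := by
    have h1 : algebraMap (RatFunc F) (RatFunc.CompletionAtInfty F) x ∈
        VO (RatFunc.CompletionAtInfty F) := by
      have h2 : algebraMap (RatFunc F) (RatFunc.CompletionAtInfty F) x =
        (z : RatFunc.CompletionAtInfty F) -
          ((z : RatFunc.CompletionAtInfty F) -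
            algebraMap (RatFunc F) (RatFunc.CompletionAtInfty F) x) := by ring
      rw [h2]
      refine sub_mem z.2 ?_
      rw [mem_VO]
      refine hx.trans ?_
      rw [← WithZero.exp_zero, WithZero.exp_le_exp]
      omega
    rw [mem_inf] at h1
    exact h1
  obtain ⟨c, hc⟩ := near_const F x hxm
  refine ⟨c, ?_⟩
  rw [← sub_eq_zero, ← map_sub, IsLocalRing.residue_eq_zero_iff, mem_max]
  rw [← v_coe] at hc
  have h3 : (((⟨_, hC c⟩ : VO (RatFunc.CompletionAtInfty F)) - z :
      VO (RatFunc.CompletionAtInfty F)) : RatFunc.CompletionAtInfty F) =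
      -(((z : RatFunc.CompletionAtInfty F) -
          algebraMap (RatFunc F) (RatFunc.CompletionAtInfty F) x)) -
        algebraMap (RatFunc F) (RatFunc.CompletionAtInfty F) (x - RatFunc.C c) := by
    rw [map_sub]
    change algebraMap (RatFunc F) (RatFunc.CompletionAtInfty F) (RatFunc.C c) - z = _
    ring
  rw [h3]
  refine Valuation.map_sub_le _ ?_ hc
  rwa [Valuation.map_neg]

end Inf

end CPI

open CPI in
theorem cpi_thm : CPIStmt := by
  classical
  intro F _ _ h2
  have := complete_inf F
  refine ⟨⟨⟨?_, ?_⟩, pi_ne (v_X_inv F), pi_mem (v_X_inv F), unif (v_X_inv F),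
    arch (v_X_inv F), henselian (v_X_inv F), fin_res F⟩, mem_inf F, ?_⟩
  · rw [← map_ofNat (algebraMap (RatFunc F) (RatFunc.CompletionAtInfty F)) 2, Ne,
      FaithfulSMul.algebraMap_eq_zero_iff, ← map_ofNat (RatFunc.C (K := F)) 2, map_eq_zero]
    exact h2
  · have h3 : ((2 : RatFunc.CompletionAtInfty F))⁻¹ = algebraMap (RatFunc F)
        (RatFunc.CompletionAtInfty F) (RatFunc.C (2⁻¹ : F)) := by
      rw [map_inv₀, map_inv₀, map_ofNat, map_ofNat]
    rw [h3]
    refine (mem_inf F _).mpr ?_
    change (RatFunc.C (2⁻¹ : F)).intDegree ≤ 0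
    simp
  · intro z N
    obtain ⟨x, hx⟩ := dense_inf F z N
    exact ⟨x, (div_pow_mem (v_X_inv F) _ N).mpr hx⟩

end Pool.AVS
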